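import Pool.Agent.Lib.MP_5fa4f2_an.BU.Glue

set_option autoImplicit false

open Pool.Agent.Lib.MP_5fa4f2_an Pool.Agent.Lib.MP_5fa4f2_an.BU Filter Topology
open scoped ComplexOrder

namespace Pool.Agent.Results.MP_5fa4f2_an.BlowUp

/-- The comparison principle fails on the blow-up of `P^2` at a point, for `T = 1`, the pulled
back Fubini-Study form (semi-positive, big), `F = 0` and the volume form of a Kahler metric, all
independent of time, for a continuous subsolution and a lower semi-continuous supersolution that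
are affine in time, the supersolution being constant at time zero and off the exceptional curve. -/
theorem result :
    (∀ p : Bl, ∃ i y, chart i y = p) ∧ (∀ i, Function.Injective (chart i)) ∧
    (∀ i, Continuous (fs (Zc i))) ∧ (∀ i y, (fs (Zc i) y).PosSemidef) ∧
    (∀ i y, y 0 ≠ 0 → 0 < (fs (Zc i) y).det.re) ∧
    (∀ i, Continuous (dens i)) ∧ (∀ i y, 0 < dens i y) ∧
    ∃ u v : ℝ → Bl → ℝ,
      (∀ i, Continuous fun p : ℝ × (Fin 2 → ℂ) => u p.1 (chart i p.2)) ∧
      (∀ i, LowerSemicontinuousOn (fun p : ℝ × (Fin 2 → ℂ) => v p.1 (chart i p.2))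
        {p | 0 ≤ p.1}) ∧
      (∀ t p, u t p = u 0 p - 3 * t) ∧ (∀ p, 0 ≤ u 0 p ∧ u 0 p ≤ 1) ∧
      (∀ t p, p.1.1 ≠ Projectivization.mk ℂ (Pi.single 0 1) (by simp) → v t p = 1) ∧
      (∀ t p, p.1.1 = Projectivization.mk ℂ (Pi.single 0 1) (by simp) → v t p = 1 - 6 * t) ∧
      (∀ i, IsSub 1 (fun _ => fs (Zc i)) (fun _ _ _ => 0) (fun _ => dens i)
        fun t y => u t (chart i y)) ∧
      (∀ i, IsSuper 1 (fun _ => fs (Zc i)) (fun _ _ _ => 0) (fun _ => dens i)
        fun t y => v t (chart i y)) ∧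
      (∀ p, u 0 p ≤ v 0 p) ∧
      ∃ t ∈ Set.Ioo (0 : ℝ) 1, ∃ p, v t p < u t p := by
  classical
  have hb : ∀ p : Bl, 0 ≤ U p.1.1.rep ∧ U p.1.1.rep ≤ 1 := fun p => by
    obtain ⟨i, y, rfl⟩ := chart_cover p
    rw [U_chart]
    exact psi_bd _ _
  refine ⟨chart_cover, chart_inj, fun i => fs_Z i ▸ om_cont _,
    fun i y => fs_Z i ▸ om_psd (kk_or i) y,
    fun i y hy => fs_Z i ▸ om_det_pos (kk_or i) hy, fun i => dens_eq i ▸ de_cont _,
    fun i y => dens_eq i ▸ de_pos (kk_or i) y, fun t p => U p.1.1.rep - 3 * t,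
    fun t p => if p.1.1 = pt then 1 - 6 * t else 1, fun i => ?_, fun i => ?_,
    fun t p => by simp, fun p => by simpa using hb p, fun t p hp => if_neg hp,
    fun t p hp => if_pos hp, fun i => ?_, fun i => ?_, fun p => by simpa using (hb p).2,
    1 / 2, by norm_num, chart 0 0, ?_⟩
  · simp only [U_chart]
    exact ((psi_cont _).comp continuous_snd).sub (by fun_prop)
  · intro p hp c hc
    simp only [chart_pt] at hc ⊢
    by_cases h : kk i = 0 ∧ p.2 0 = 0
    · rw [if_pos h] at hc
      have h1 : ∀ᶠ x : ℝ × V in 𝓝 p, c < 1 - 6 * x.1 :=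
        (show ContinuousAt (fun x : ℝ × V => 1 - 6 * x.1) p by fun_prop).eventually
          (lt_mem_nhds hc)
      filter_upwards [mem_nhdsWithin_of_mem_nhds h1, self_mem_nhdsWithin] with x h2 h3
      have h4 : 0 ≤ x.1 := h3
      split_ifs <;> linarith
    · rw [if_neg h] at hc
      by_cases hk : kk i = 0
      · have h1 : ∀ᶠ x : ℝ × V in 𝓝 p, x.2 0 ≠ 0 :=
          (show ContinuousAt (fun x : ℝ × V => x.2 0) p by fun_prop).eventually_ne
            fun e => h ⟨hk, e⟩
        filter_upwards [mem_nhdsWithin_of_mem_nhds h1] with x h2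
        rwa [if_neg fun e => h2 e.2]
      · exact .of_forall fun x => by rwa [if_neg fun e => hk e.1]
  · simp only [U_chart, fs_Z, dens_eq]
    exact sub_model (kk_or i)
  · simp only [chart_pt, fs_Z, dens_eq]
    rcases kk_or i with h | h
    · simpa only [h, true_and] using super_model0
    · simpa only [h, one_ne_zero, false_and, if_false] using super_model1
  · have := (hb (chart 0 0)).1
    simp only [chart_pt]
    rw [if_pos ⟨rfl, rfl⟩]
    linarith

end Pool.Agent.Results.MP_5fa4f2_an.BlowUp
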