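import Mathlib
import Pool.Agent.Lib.MP_5fa4f2_an.Defs
import Pool.Agent.Lib.MP_5fa4f2_an.Example

set_option autoImplicit false

open Pool.Agent.Lib.MP_5fa4f2_an

namespace Pool.Agent.Results.MP_5fa4f2_an.Counterexample

/-- The comparison principle fails on the torus `C^n / (Z + iZ)^n`, in every dimension, for
`T = 1`, the constant flat Kahler form, `F = 0` and a smooth density `m ≥ 0` which is positive
except at one time and never identically zero in space. -/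
theorem result (n : ℕ) (hn : 0 < n) :
    ∃ m u v : ℝ → (Fin n → ℂ) → ℝ,
      OnTorus m ∧ OnTorus u ∧ OnTorus v ∧
      ContDiff ℝ ((⊤ : ℕ∞) : WithTop ℕ∞) (fun p : ℝ × (Fin n → ℂ) => m p.1 p.2) ∧
      (∀ t ∈ Set.Ico (0 : ℝ) 1, ∀ x, 0 ≤ m t x ∧ m t x ≤ 1) ∧
      (∃ t₀ : ℝ, ∀ t, t ≠ t₀ → ∀ x, 0 < m t x) ∧
      (∀ t, ∃ x, 0 < m t x) ∧
      UpperSemicontinuous (fun p : ℝ × (Fin n → ℂ) => u p.1 p.2) ∧
      Continuous (fun p : ℝ × (Fin n → ℂ) => v p.1 p.2) ∧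
      (∃ C : ℝ, ∀ t ∈ Set.Ico (0 : ℝ) 1, ∀ x, |u t x| ≤ C ∧ |v t x| ≤ C) ∧
      IsSub 1 (fun _ _ => 1) (fun _ _ _ => 0) m u ∧
      IsSuper 1 (fun _ _ => 1) (fun _ _ _ => 0) m v ∧
      (∀ x, u 0 x = v 0 x) ∧
      ∃ t ∈ Set.Ioo (0 : ℝ) 1, ∃ x, v t x < u t x := by
  let i : Fin n := ⟨0, hn⟩
  obtain ⟨c, h1, h2, hc, hh1, hh2, hb⟩ := exists_h
  obtain ⟨t₀, ht₀, hlt⟩ := exists_t0 (Real.log (2 ^ (n + 1))) hc
  refine ⟨mm i t₀, uu i c t₀, vv t₀, mm_onTorus i t₀, uu_onTorus i c t₀, vv_onTorus t₀,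
    mm_contDiff i t₀, fun t ht x => ⟨mm_nonneg i t₀ t x, (mm_le i ht₀ ht x).trans ?_⟩,
    ⟨t₀, fun t ht x => ?_⟩, fun t => ⟨fun _ => ((1 / 4 : ℝ) : ℂ), ?_⟩, uu_usc i t₀ hc,
    vv_continuous t₀, ?_, uu_isSub i ht₀ hh1 hh2 hb, vv_isSuper i t₀, fun x => ?_,
    t₀, ht₀, fun _ => ((-(1 / 4) : ℝ) : ℂ), ?_⟩
  · exact pow_le_one₀ (by norm_num) (by norm_num)
  · have h3 := Real.smoothTransition.nonneg (Real.sin (2 * Real.pi * (x i).re))
    have h4 : 0 < (t - t₀) ^ 2 := by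
      have := sub_ne_zero.2 ht
      positivity
    unfold mm aa
    positivity
  · simp only [mm, Complex.ofReal_re, aa_quarter]
    positivity
  · have hcont : Continuous fun t : ℝ => vv (n := n) t₀ t 0 :=
      (vv_continuous t₀).comp (f := fun t : ℝ => (t, (0 : Fin n → ℂ))) (by fun_prop)
    obtain ⟨C, hC⟩ := (isCompact_Icc (a := (0 : ℝ)) (b := 1)).exists_bound_of_continuousOn
      hcont.continuousOn
    refine ⟨max C c, fun t ht x => ⟨le_max_of_le_right ?_, le_max_of_le_left ?_⟩⟩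
    · have h3 := Real.smoothTransition.nonneg (-Real.sin (2 * Real.pi * (x i).re))
      have h4 := Real.smoothTransition.le_one (-Real.sin (2 * Real.pi * (x i).re))
      unfold uu bb
      split_ifs
      · simpa using hc.le
      · rw [abs_of_nonneg (by positivity)]
        nlinarith
    · exact hC t ⟨ht.1, ht.2.le⟩
  · simp [uu, vv, ht₀.1]
  · simp only [uu, vv, lt_irrefl, if_false, Complex.ofReal_re, bb_quarter, sub_self, G_zero]
    linarith

end Pool.Agent.Results.MP_5fa4f2_an.Counterexample
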