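import Pool.Agent.Lib.MP_5fa4f2_an.Point

set_option autoImplicit false

open Pool.Agent.Lib.MP_5fa4f2_an Filter Topology

namespace Pool.Agent.Results.MP_5fa4f2_an.OnePoint

/-- The comparison principle fails on the torus `C^n / (Z + iZ)^n`, in every dimension, for
`T = 1`, the flat Kahler form, `F = 0` and a smooth density `m ≥ 0` that is positive everywhere at
almost every time and at every time vanishes at one point of the torus at most, for a continuous
subsolution with bounded second differences in space and a continuous supersolution that does not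
depend on the space variable. -/
theorem result (n : ℕ) :
    ∃ m u v : ℝ → (Fin n → ℂ) → ℝ,
      OnTorus m ∧ OnTorus u ∧ OnTorus v ∧
      ContDiff ℝ ((⊤ : ℕ∞) : WithTop ℕ∞) (fun p : ℝ × (Fin n → ℂ) => m p.1 p.2) ∧
      (∀ t x, 0 ≤ m t x ∧ m t x ≤ 1) ∧
      (∀ᵐ t, ∀ x, 0 < m t x) ∧
      (∀ t x y, m t x = 0 → m t y = 0 →
        ∃ a b : Fin n → ℤ, y = x + fun j => (a j : ℂ) + (b j : ℂ) * Complex.I) ∧
      Continuous (fun p : ℝ × (Fin n → ℂ) => u p.1 p.2) ∧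
      Continuous (fun p : ℝ × (Fin n → ℂ) => v p.1 p.2) ∧
      (∀ t x h, |u t (x + h) + u t (x - h) - 2 * u t x| ≤ ‖h‖ ^ 2) ∧
      (∀ t x y, v t x = v t y) ∧
      (∃ C : ℝ, ∀ t ∈ Set.Ico (0 : ℝ) 1, ∀ x, |u t x| ≤ C ∧ |v t x| ≤ C) ∧
      IsSub 1 (fun _ _ => 1) (fun _ _ _ => 0) m u ∧
      IsSuper 1 (fun _ _ => 1) (fun _ _ _ => 0) m v ∧
      (∀ x, u 0 x = v 0 x) ∧
      ∃ t ∈ Set.Ioo (0 : ℝ) 1, ∀ x, v t x < u t x := by
  obtain ⟨g, φ, w, gc, φc, ws, g0, φ0, -, w1, wa, hloc, hcon, t₁, ht₁, hlt, hφ⟩ :=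
    exists_time2 (A := n + 1) (by linarith [Nat.cast_nonneg (α := ℝ) n]) one_pos
  obtain ⟨G, Z, Gc, G1, G0, G2, Gr, Gp, Zc, Zl, Zs⟩ := exists_scan n
  have Wc : IsClosed {p : ℝ × (Fin n → ℂ) × (Fin n → ℂ) | w p.1 = 0 ∧ (2 * φ p.1, p.2) ∈ Z} :=
    (isClosed_eq (ws.continuous.comp continuous_fst) continuous_const).inter
      (Zc.preimage (by fun_prop))
  obtain ⟨f, fs, fc, f1⟩ := Wc.isOpen_compl.exists_contDiff_support_eq (n := ⊤)
  have f0 : ∀ p, f p = 0 ↔ w p.1 = 0 ∧ (2 * φ p.1, p.2) ∈ Z := fun p => by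
    rw [← Function.notMem_support, fs, Set.notMem_compl_iff]
    rfl
  have a0 : ∀ p, 0 ≤ (1 / 2 : ℝ) ^ (n + 1) * f p := fun p =>
    mul_nonneg (by positivity) (f1 ⟨p, rfl⟩).1
  have mle : ∀ t p, w t + (1 / 2) ^ (n + 1) * f p ≤ (1 / 2) ^ n := fun t p => by
    have e1 : Real.exp (-((n : ℝ) + 1)) ≤ (1 / 2) ^ (n + 1) := by
      rw [show -((n : ℝ) + 1) = ((n + 1 : ℕ) : ℝ) * (-1) by push_cast; ring, Real.exp_nat_mul]
      exact pow_le_pow_left₀ (Real.exp_pos _).le (Real.exp_neg_one_lt_half).le _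
    have e2 := mul_le_of_le_one_right (show (0 : ℝ) ≤ (1 / 2) ^ (n + 1) by positivity)
      (f1 ⟨p, rfl⟩).2
    have e3 : (1 / 2 : ℝ) ^ (n + 1) = (1 / 2) ^ n * (1 / 2) := pow_succ _ _
    linarith [(w1 t).2]
  have mz : ∀ t x, w t + (1 / 2) ^ (n + 1) * f (t, emb x) = 0 → (2 * φ t, emb x) ∈ Z :=
    fun t x h => ((f0 (t, emb x)).1 ((mul_eq_zero.1 (by linarith [(w1 t).1, a0 (t, emb x)] :
      (1 / 2 : ℝ) ^ (n + 1) * f (t, emb x) = 0)).resolve_left (by positivity))).2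
  refine ⟨fun t x => w t + (1 / 2) ^ (n + 1) * f (t, emb x), fun t x => G (2 * φ t, x),
    fun t _ => g t, fun t x a b => by simp only [emb_lat ⟨a, b, rfl⟩],
    fun t x a b => Gp _ ⟨a, b, rfl⟩ _ _, fun _ _ _ _ => rfl, (ws.comp contDiff_fst).add
      (contDiff_const.mul (fc.comp (contDiff_fst.prodMk (emb_smooth.comp contDiff_snd)))),
    fun t x => ⟨add_nonneg (w1 t).1 (a0 _),
      (mle _ _).trans (pow_le_one₀ (by norm_num) (by norm_num))⟩,
    wa.mono fun t ht x => add_pos_of_pos_of_nonneg ht (a0 _), fun t x y hx hy => ?_,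
    Gc.comp (by fun_prop), gc.comp continuous_fst, fun t x h => by simpa using (Gr _).2 x h,
    fun _ _ _ => rfl, ?_, fun t _ x q hq hmax => ?_, fun t _ x q hq hmin => ?_,
    fun x => by simp [φ0, g0, G0], t₁, ht₁, fun x => ?_⟩
  · obtain ⟨_, ⟨a, b, rfl⟩, e⟩ := Zs _ x y (mz t x hx) (mz t y hy)
    exact ⟨a, b, e⟩
  · obtain ⟨C, hC⟩ := (isCompact_Icc (a := (0 : ℝ)) (b := 1)).exists_bound_of_continuousOn
      gc.continuousOn
    exact ⟨max C 1, fun t ht x => ⟨le_max_of_le_right (abs_le.2 ⟨by linarith [(G1 (2 * φ t, x)).1],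
      (G1 _).2⟩), le_max_of_le_left (hC t ⟨ht.1, ht.2.le⟩)⟩⟩
  · have hx := sub_contact2 hq.2 (Gr (2 * φ t)) (slice_x hmax)
    refine ⟨hx.1, le_trans ?_ hx.2⟩
    by_cases hm : w t + (1 / 2) ^ (n + 1) * f (t, emb x) = 0
    · simp only [hm, mul_zero]; positivity
    have hconst : ∀ᶠ s in 𝓝 t, G (2 * φ s, x) = G (2 * φ t, x) := by
      by_cases hw : w t = 0
      · exact (continuous_const.mul φc).continuousAt.eventually (Zl (2 * φ t) x fun h0 =>
          hm (by rw [(f0 (t, emb x)).2 ⟨hw, h0⟩, hw, mul_zero, add_zero]))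
      · exact (hloc t hw).mono fun s hs => by rw [hs]
    have ht1 : IsLocalMax (fun s => G (2 * φ t, x) - q s x) t :=
      (slice_t hmax).congr (hconst.mono fun s hs => by simp only [hs])
    have hd : deriv (fun s => q s x) t = 0 := by
      simpa using ht1.hasDerivAt_eq_zero (hq.1.hasDerivAt.const_sub _)
    simp only [hd, add_zero, Real.exp_zero, one_mul]
    exact mle _ _
  · have hs : IsLocalMax (q t) x := by
      simpa using (slice_x hmin.neg).add (isMaxFilter_const (b := g t))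
    refine (super_contact hq.2 hs).trans ((hcon _ t hq.1 ?_).trans ?_)
    · simpa using (slice_t hmin.neg).neg
    · rw [add_zero]
      exact mul_le_mul_of_nonneg_left (le_add_of_nonneg_right (a0 _)) (Real.exp_pos _).le
  · simpa only [G2 _ x (show 1 ≤ 2 * φ t₁ by linarith)] using hlt

end Pool.Agent.Results.MP_5fa4f2_an.OnePoint
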